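import Pool.Agent.Helper67.DO.StmtsT

set_option autoImplicit false

/-! # T4: the topology of `DiffOmega` through the levels -/

namespace Pool.Agent.Helper67.DO

open scoped BigOperators Real Topology
open MeasureTheory

noncomputable section

theorem t4_isOpen_St (a : ℝ) : IsOpen (St a) :=
  isOpen_lt (continuous_abs.comp Complex.continuous_im) continuous_const

theorem t4_conv_St (a : ℝ) : Convex ℝ (St a) := by
  have h : St a = Complex.imLm ⁻¹' (Set.Ioo (-a) a) := by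
    ext z
    simp only [St, Set.mem_ofPred_eq, Set.mem_preimage, Complex.imLm_coe, Set.mem_Ioo, abs_lt]
  rw [h]
  exact (convex_Ioo _ _).linear_preimage _

theorem t4_real_mem {a : ℝ} (ha : 0 < a) (x : ℝ) : (x : ℂ) ∈ St a := by
  simp only [St, Set.mem_ofPred_eq, Complex.ofReal_im, abs_zero]
  exact ha

/-- identity theorem on a strip -/
theorem t4_ident {a : ℝ} (ha : 0 < a) {f g : ℂ → ℂ} (hf : DifferentiableOn ℂ f (St a))
    (hg : DifferentiableOn ℂ g (St a)) (h : ∀ x : ℝ, f x = g x) : ∀ z ∈ St a, f z = g z := by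
  have h0 : (0 : ℂ) ∈ St a := by
    have := t4_real_mem ha 0
    simpa using this
  have hfr : ∃ᶠ z in 𝓝[≠] (0 : ℂ), f z = g z := by
    rw [Filter.frequently_iff]
    intro U hU
    rw [mem_nhdsWithin] at hU
    obtain ⟨V, hV, h0V, hVU⟩ := hU
    obtain ⟨r, hr, hb⟩ := Metric.isOpen_iff.1 hV 0 h0V
    refine ⟨((r / 2 : ℝ) : ℂ), hVU ⟨hb ?_, ?_⟩, h _⟩
    · rw [Metric.mem_ball, dist_zero_right, Complex.norm_real, Real.norm_eq_abs,
        abs_of_pos (by linarith)]
      linarith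
    · simp only [Set.mem_compl_iff, Set.mem_singleton_iff]
      intro hc
      have : (r / 2 : ℝ) = 0 := by exact_mod_cast hc
      linarith
  exact AnalyticOnNhd.eqOn_of_preconnected_of_frequently_eq
    (hf.analyticOnNhd (t4_isOpen_St a)) (hg.analyticOnNhd (t4_isOpen_St a))
    (t4_conv_St a).isPreconnected h0 hfr

/-- contour shift for periodic functions -/
theorem t4_shift {a : ℝ} {h : ℂ → ℂ} (hh : DifferentiableOn ℂ h (St a))
    (hp : ∀ z ∈ St a, h (z + 1) = h z) (y : ℝ) (hy : |y| < a) :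
    ∫ x in (0 : ℝ)..1, h x = ∫ x in (0 : ℝ)..1, h (x + y * Complex.I) := by
  have key := Complex.integral_boundary_rect_eq_zero_of_differentiableOn h (0 : ℂ)
    (1 + y * Complex.I) (hh.mono (by
      intro z hz
      simp only [Complex.mem_reProdIm, Complex.zero_im, Complex.add_im, Complex.one_im,
        Complex.mul_im, Complex.ofReal_re, Complex.I_im, mul_one, Complex.ofReal_im,
        Complex.I_re, mul_zero, add_zero, zero_add] at hz
      have h2 := hz.2
      simp only [St, Set.mem_ofPred_eq]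
      rcases le_total 0 y with h0 | h0
      · rw [Set.uIcc_of_le h0] at h2
        rw [abs_of_nonneg h2.1]
        exact lt_of_le_of_lt h2.2 (lt_of_le_of_lt (le_abs_self y) hy)
      · rw [Set.uIcc_of_ge h0] at h2
        rw [abs_of_nonpos h2.2]
        have := neg_abs_le y
        have := h2.1
        linarith))
  simp only [Complex.zero_re, Complex.zero_im, Complex.add_re, Complex.one_re, Complex.mul_re,
    Complex.ofReal_re, Complex.I_re, mul_zero, Complex.ofReal_im, Complex.I_im, mul_one, sub_self,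
    add_zero, Complex.add_im, Complex.one_im, Complex.mul_im, zero_add, Complex.ofReal_zero,
    zero_mul, Complex.ofReal_one] at key
  have h3 : (∫ t : ℝ in (0 : ℝ)..y, h (1 + t * Complex.I)) = ∫ t : ℝ in (0 : ℝ)..y, h (t * Complex.I) := by
    apply intervalIntegral.integral_congr
    intro t ht
    have ht' : |t| < a := by
      rcases le_total 0 y with h0 | h0
      · rw [Set.uIcc_of_le h0] at ht
        rw [abs_of_nonneg ht.1]
        exact lt_of_le_of_lt ht.2 (lt_of_le_of_lt (le_abs_self y) hy)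
      · rw [Set.uIcc_of_ge h0] at ht
        rw [abs_of_nonpos ht.2]
        have := neg_abs_le y
        have := ht.1
        linarith
    have := hp (t * Complex.I) (by
      simp only [St, Set.mem_ofPred_eq, Complex.mul_im, Complex.ofReal_re, Complex.I_im, mul_one,
        Complex.ofReal_im, Complex.I_re, mul_zero, add_zero]
      exact ht')
    show h (1 + t * Complex.I) = h (t * Complex.I)
    rw [add_comm, this]
  rw [h3] at key
  have : (∫ x in (0 : ℝ)..1, h x) - ∫ x in (0 : ℝ)..1, h (x + y * Complex.I) = 0 := by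
    linear_combination key
  exact sub_eq_zero.1 this

/-- decay of the Fourier coefficients -/
theorem t4_decay {a C : ℝ} {w : ℝ → ℝ} {h : ℂ → ℂ} (hh : DifferentiableOn ℂ h (St a))
    (hp : ∀ z ∈ St a, h (z + 1) = h z) (hr : ∀ x : ℝ, h x = (w x : ℂ))
    (hb : ∀ z ∈ St a, ‖h z‖ ≤ C) (b : ℝ) (hb0 : 0 ≤ b) (hba : b < a) (l : ℤ) :
    ‖fco w l‖ ≤ C * Real.exp (-(2 * π * |(l : ℝ)| * b)) := by
  have ha : 0 < a := lt_of_le_of_lt hb0 hba
  have hC : 0 ≤ C := (norm_nonneg _).trans (hb _ (t4_real_mem ha 0))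
  obtain ⟨y, hy, hly⟩ : ∃ y : ℝ, |y| ≤ b ∧ (l : ℝ) * y = -(|(l : ℝ)| * b) := by
    rcases le_total 0 (l : ℝ) with h0 | h0
    · exact ⟨-b, by rw [abs_neg, abs_of_nonneg hb0], by rw [abs_of_nonneg h0]; ring⟩
    · exact ⟨b, by rw [abs_of_nonneg hb0], by rw [abs_of_nonpos h0]; ring⟩
  have e1 : fco w l = ∫ x in (0 : ℝ)..1,
      (fun z : ℂ => h z * Complex.exp (-(2 * π * Complex.I * l * z))) (x : ℂ) := by
    unfold fco
    apply intervalIntegral.integral_congr
    intro x _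
    show _ = h x * Complex.exp (-(2 * π * Complex.I * l * x))
    rw [hr x]
  have e2 := t4_shift (h := fun z : ℂ => h z * Complex.exp (-(2 * π * Complex.I * l * z))) (a := a)
    (hh.mul (by fun_prop)) (by
      intro z hz
      show h (z + 1) * _ = h z * _
      rw [hp z hz]
      congr 1
      have : -(2 * π * Complex.I * l * (z + 1)) = -(2 * π * Complex.I * l * z) + (-l : ℤ) * (2 * π * Complex.I) := by
        push_cast
        ring
      rw [this, Complex.exp_add, Complex.exp_int_mul_two_pi_mul_I, mul_one]) y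
    (lt_of_le_of_lt hy hba)
  rw [e1, e2]
  have e3 := intervalIntegral.norm_integral_le_of_norm_le_const (a := (0 : ℝ)) (b := 1)
    (C := C * Real.exp (-(2 * π * |(l : ℝ)| * b)))
    (f := fun x : ℝ => (fun z : ℂ => h z * Complex.exp (-(2 * π * Complex.I * l * z))) (x + y * Complex.I))
    (by
      intro x _
      show ‖h (x + y * Complex.I) * Complex.exp (-(2 * π * Complex.I * l * (x + y * Complex.I)))‖ ≤ _
      rw [norm_mul]
      apply mul_le_mul
      · apply hb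
        simp only [St, Set.mem_ofPred_eq, Complex.add_im, Complex.ofReal_im, Complex.mul_im,
          Complex.ofReal_re, Complex.I_im, mul_one, Complex.I_re, mul_zero, add_zero, zero_add]
        exact lt_of_le_of_lt hy hba
      · rw [Complex.norm_exp]
        apply le_of_eq
        congr 1
        have : (-(2 * π * Complex.I * l * (x + y * Complex.I)) : ℂ).re = 2 * π * (l * y) := by
          have e : (-(2 * π * Complex.I * l * (x + y * Complex.I)) : ℂ)
              = ((2 * π * (l * y) : ℝ) : ℂ) + ((-(2 * π * l * x) : ℝ) : ℂ) * Complex.I := by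
            push_cast
            ring_nf
            rw [Complex.I_sq]
            ring
          rw [e]
          simp
        rw [this, hly]
        ring
      · exact norm_nonneg _
      · exact hC)
  simpa using e3

theorem t4_mem_St {a : ℝ} {z : ℂ} : z ∈ St a ↔ |z.im| < a := Iff.rfl

/-- summable majorant -/
theorem t4_summ {c : ℝ} (hc : 0 < c) : Summable (fun l : ℤ => Real.exp (-(c * |(l : ℝ)|))) := by
  have h : Summable (fun n : ℕ => Real.exp (-(c * (n : ℝ)))) := by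
    have := Real.summable_exp_nat_mul_iff.2 (show -c < 0 by linarith)
    refine this.congr fun n => ?_
    congr 1
    ring
  apply Summable.of_nat_of_neg
  · refine h.congr fun n => ?_
    simp
  · refine h.congr fun n => ?_
    simp

theorem t4_normexp (l : ℤ) (z : ℂ) :
    ‖Complex.exp (2 * π * Complex.I * l * z)‖ = Real.exp (-(2 * π * l * z.im)) := by
  rw [Complex.norm_exp]
  congr 1
  have e : (2 * π * Complex.I * l * z : ℂ)
      = ((-(2 * π * l * z.im) : ℝ) : ℂ) + ((2 * π * l * z.re : ℝ) : ℂ) * Complex.I := by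
    conv_lhs => rw [← Complex.re_add_im z]
    push_cast
    ring_nf
    rw [Complex.I_sq]
    ring
  rw [e]
  simp

theorem t4_normexp_le {n : ℕ} (hn : 1 ≤ n) (l : ℤ) {z : ℂ} (hz : |z.im| ≤ 1 / (2 * n)) :
    ‖Complex.exp (2 * π * Complex.I * l * z)‖ ≤ Real.exp (π * |(l : ℝ)| / n) := by
  rw [t4_normexp]
  apply Real.exp_le_exp.2
  have hn0 : (0 : ℝ) < n := by exact_mod_cast hn
  calc -(2 * π * l * z.im) ≤ |2 * π * l * z.im| := neg_le_abs _
    _ = 2 * π * |(l : ℝ)| * |z.im| := by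
        rw [abs_mul, abs_mul, abs_of_pos (by positivity : (0 : ℝ) < 2 * π)]
    _ ≤ 2 * π * |(l : ℝ)| * (1 / (2 * n)) := by
        apply mul_le_mul_of_nonneg_left hz
        positivity
    _ = π * |(l : ℝ)| / n := by field_simp

theorem t4_contw {Φ : ℝ → ℝ} (h : IsLift Φ) : Continuous (fun x => ((Φ x - x : ℝ) : ℂ)) :=
  Complex.continuous_ofReal.comp (h.cont.sub continuous_id)

theorem t4_fint {Φ : ℝ → ℝ} (h : IsLift Φ) (l : ℤ) : IntervalIntegrable
    (fun x : ℝ => ((Φ x - x : ℝ) : ℂ) * Complex.exp (-(2 * π * Complex.I * l * x))) volume 0 1 := by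
  apply Continuous.intervalIntegrable
  exact (t4_contw h).mul (by fun_prop)

/-- Fourier coefficients of the difference -/
theorem t4_fdiff {Φ Ψ : ℝ → ℝ} (h : IsLift Φ) (k : IsLift Ψ) {δ : ℝ} (hδ : ∀ x, |Φ x - Ψ x| ≤ δ)
    (l : ℤ) : ‖fco (fun x => Φ x - x) l - fco (fun x => Ψ x - x) l‖ ≤ δ := by
  unfold fco
  rw [← intervalIntegral.integral_sub (t4_fint h l) (t4_fint k l)]
  have e3 := intervalIntegral.norm_integral_le_of_norm_le_const (a := (0 : ℝ)) (b := 1) (C := δ)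
    (f := fun x : ℝ => ((Φ x - x : ℝ) : ℂ) * Complex.exp (-(2 * π * Complex.I * l * x))
      - ((Ψ x - x : ℝ) : ℂ) * Complex.exp (-(2 * π * Complex.I * l * x))) (by
    intro x _
    have e : ((Φ x - x : ℝ) : ℂ) * Complex.exp (-(2 * π * Complex.I * l * x))
      - ((Ψ x - x : ℝ) : ℂ) * Complex.exp (-(2 * π * Complex.I * l * x))
      = ((Φ x - Ψ x : ℝ) : ℂ) * Complex.exp (2 * π * Complex.I * ((-l : ℤ) : ℂ) * x) := by
      push_cast
      rw [show -(2 * π * Complex.I * l * x) = 2 * π * Complex.I * (-l : ℂ) * x by ring]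
      ring
    rw [e, norm_mul, t4_normexp, Complex.norm_real, Complex.ofReal_im, mul_zero, neg_zero,
      Real.exp_zero, mul_one]
    exact hδ x)
  simpa using e3

theorem t4_term {n : ℕ} (hn : 1 ≤ n) {Φ : ℝ → ℝ} (h : Φ ∈ AA n) {l : ℤ} (hl : l ≠ 0) {z : ℂ}
    (hz : |z.im| ≤ 1 / (2 * n)) :
    ‖fco (fun x => Φ x - x) l * Complex.exp (2 * π * Complex.I * l * z)‖
      ≤ n * Real.exp (-(π / n * |(l : ℝ)|)) := by
  rw [norm_mul]
  calc _ ≤ n * Real.exp (-(2 * π * |(l : ℝ)| / n)) * Real.exp (π * |(l : ℝ)| / n) :=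
        mul_le_mul (h.2.1 l hl) (t4_normexp_le hn l hz) (norm_nonneg _) (by positivity)
    _ = n * Real.exp (-(π / n * |(l : ℝ)|)) := by
        rw [mul_assoc, ← Real.exp_add]
        congr 2
        ring

/-- the Fourier series converges absolutely -/
theorem t4_sm {n : ℕ} (hn : 1 ≤ n) {Φ : ℝ → ℝ} (h : Φ ∈ AA n) {z : ℂ}
    (hz : |z.im| ≤ 1 / (2 * n)) :
    Summable (fun l : ℤ => fco (fun x => Φ x - x) l * Complex.exp (2 * π * Complex.I * l * z)) := by
  have hn0 : (0 : ℝ) < n := by exact_mod_cast hn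
  have hs : Summable (fun l : ℤ => (n + ‖fco (fun x => Φ x - x) 0‖ : ℝ)
      * Real.exp (-(π / n * |(l : ℝ)|))) := (t4_summ (by positivity)).mul_left _
  refine Summable.of_norm_bounded hs fun l => ?_
  by_cases hl : l = 0
  · subst hl
    simp
  · refine (t4_term hn h hl hz).trans ?_
    apply mul_le_mul_of_nonneg_right _ (Real.exp_pos _).le
    linarith [norm_nonneg (fco (fun x => Φ x - x) 0)]

theorem t4_bdd {n : ℕ} (hn : 1 ≤ n) {Φ : ℝ → ℝ} (h : Φ ∈ AA n) :
    ∃ C : ℝ, ∀ z : ℂ, |z.im| ≤ 1 / (2 * n) → ‖cx Φ z - z‖ ≤ C := by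
  have hn0 : (0 : ℝ) < n := by exact_mod_cast hn
  have hs : Summable (fun l : ℤ => (n + ‖fco (fun x => Φ x - x) 0‖ : ℝ)
      * Real.exp (-(π / n * |(l : ℝ)|))) := (t4_summ (by positivity)).mul_left _
  refine ⟨∑' l : ℤ, (n + ‖fco (fun x => Φ x - x) 0‖ : ℝ) * Real.exp (-(π / n * |(l : ℝ)|)),
    fun z hz => ?_⟩
  have e : cx Φ z - z = four (fun x => Φ x - x) z := by
    unfold cx
    ring
  rw [e]
  unfold four
  refine tsum_of_norm_bounded hs.hasSum fun l => ?_
  by_cases hl : l = 0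
  · subst hl
    simp
  · refine (t4_term hn h hl hz).trans ?_
    apply mul_le_mul_of_nonneg_right _ (Real.exp_pos _).le
    linarith [norm_nonneg (fco (fun x => Φ x - x) 0)]

/-- uniform stability of the extension -/
theorem t4_stab {n : ℕ} (hn : 1 ≤ n) {ε : ℝ} (hε : 0 < ε) : ∃ δ : ℝ, 0 < δ ∧ ∀ Φ ∈ AA n, ∀ Ψ ∈ AA n,
    (∀ x, |Φ x - Ψ x| ≤ δ) → ∀ z : ℂ, |z.im| ≤ 1 / (2 * n) → ‖cx Φ z - cx Ψ z‖ ≤ ε := by
  have hn0 : (0 : ℝ) < n := by exact_mod_cast hn
  have hn1 : (1 : ℝ) ≤ n := by exact_mod_cast hn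
  have hs : Summable (fun l : ℤ => (2 * n : ℝ) * Real.exp (-(π / n * |(l : ℝ)|))) :=
    (t4_summ (by positivity)).mul_left _
  have hT : Filter.Tendsto (fun k : ℕ => ∑' l : ℤ, min (1 / ((k : ℝ) + 1) * Real.exp (π * |(l : ℝ)| / n))
      ((2 * n : ℝ) * Real.exp (-(π / n * |(l : ℝ)|)))) Filter.atTop (𝓝 (∑' l : ℤ, (0 : ℝ))) := by
    apply tendsto_tsum_of_dominated_convergence hs
    · intro l
      have h1 : Filter.Tendsto (fun k : ℕ => 1 / ((k : ℝ) + 1) * Real.exp (π * |(l : ℝ)| / n))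
          Filter.atTop (𝓝 (0 * Real.exp (π * |(l : ℝ)| / n))) :=
        tendsto_one_div_add_atTop_nhds_zero_nat.mul_const _
      rw [zero_mul] at h1
      refine squeeze_zero (fun k => ?_) (fun k => min_le_left _ _) h1
      positivity
    · filter_upwards with k l
      rw [Real.norm_eq_abs, abs_of_nonneg (by positivity)]
      exact min_le_right _ _
  rw [tsum_zero] at hT
  obtain ⟨k, hk⟩ := (hT.eventually (gt_mem_nhds hε)).exists
  refine ⟨1 / ((k : ℝ) + 1), by positivity, fun Φ hΦ Ψ hΨ hd z hz => ?_⟩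
  have e : cx Φ z - cx Ψ z = ∑' l : ℤ, (fco (fun x => Φ x - x) l * Complex.exp (2 * π * Complex.I * l * z)
      - fco (fun x => Ψ x - x) l * Complex.exp (2 * π * Complex.I * l * z)) := by
    rw [(t4_sm hn hΦ hz).tsum_sub (t4_sm hn hΨ hz)]
    unfold cx four
    ring
  rw [e]
  refine le_trans ?_ hk.le
  have hsm : Summable (fun l : ℤ => min (1 / ((k : ℝ) + 1) * Real.exp (π * |(l : ℝ)| / n))
      ((2 * n : ℝ) * Real.exp (-(π / n * |(l : ℝ)|)))) :=
    Summable.of_nonneg_of_le (fun l => by positivity) (fun l => min_le_right _ _) hs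
  refine tsum_of_norm_bounded hsm.hasSum fun l => ?_
  apply le_min
  · rw [← sub_mul, norm_mul]
    exact mul_le_mul (t4_fdiff hΦ.1 hΨ.1 hd l) (t4_normexp_le hn l hz) (norm_nonneg _) (by positivity)
  · by_cases hl : l = 0
    · subst hl
      have h1 := t4_fdiff hΦ.1 hΨ.1 hd 0
      have h2 : 1 / ((k : ℝ) + 1) ≤ 1 := by
        rw [div_le_one (by positivity)]
        linarith [(Nat.cast_nonneg k : (0 : ℝ) ≤ k)]
      simp only [Int.cast_zero, mul_zero, zero_mul, Complex.exp_zero, mul_one, abs_zero, neg_zero,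
        Real.exp_zero]
      linarith
    · refine (norm_sub_le _ _).trans ?_
      have h1 := t4_term hn hΦ hl hz
      have h2 := t4_term hn hΨ hl hz
      linarith

theorem t4_part1 (hT1 : ST_T1) (hD1 : ST_D1) : ∀ U : Set DiffOmega, IsOpen U → ∀ n : ℕ, 1 ≤ n →
    ∀ Φ ∈ AA n, cls Φ ∈ U → ∃ δ : ℝ, 0 < δ ∧
    ∀ Ψ ∈ AA n, (∀ x, |Φ x - Ψ x| ≤ δ) → cls Ψ ∈ U := by
  intro U hU n hn Φ hΦ hΦU
  have hn0 : (0 : ℝ) < n := by exact_mod_cast hn
  obtain ⟨ρ, s, M, hI⟩ := hD1 n hn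
  have hρ : 0 < ρ := lt_of_lt_of_le hI.pos.1 hI.pos.2.1
  obtain ⟨N0, hN0⟩ := exists_nat_gt (1 / (2 * ρ))
  obtain ⟨N, hN1, hN2, hN3⟩ : ∃ N : ℕ, 1 ≤ N ∧ (1 : ℝ) / N ≤ 2 * ρ ∧ (1 : ℝ) / N ≤ 1 / (2 * n) := by
    refine ⟨max N0 (2 * n), ?_, ?_, ?_⟩
    · exact le_trans (by omega) (le_max_right _ _)
    · have h1 : (N0 : ℝ) ≤ ((max N0 (2 * n) : ℕ) : ℝ) := by exact_mod_cast le_max_left _ _
      rw [div_lt_iff₀ (by positivity)] at hN0
      have h2 : (0 : ℝ) < ((max N0 (2 * n) : ℕ) : ℝ) := by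
        have : (0 : ℕ) < max N0 (2 * n) := lt_of_lt_of_le (by omega) (le_max_right _ _)
        exact_mod_cast this
      rw [div_le_iff₀ h2]
      nlinarith
    · apply one_div_le_one_div_of_le (by positivity)
      have : (2 * n : ℕ) ≤ max N0 (2 * n) := le_max_right _ _
      exact_mod_cast this
  have ext : ∀ Ψ ∈ AA n, HasExt N Ψ (cx Ψ) := by
    intro Ψ hΨ
    refine ⟨(hI.hol Ψ hΨ).mono fun z hz => ?_, hI.real Ψ hΨ, ?_⟩
    · exact lt_of_lt_of_le hz hN2
    · obtain ⟨C, hC⟩ := t4_bdd hn hΨ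
      exact ⟨C, fun z hz => hC z (hz.le.trans hN3)⟩
  have mem : ∀ Ψ ∈ AA n, cls Ψ ∈ Gn N := fun Ψ hΨ => ⟨Ψ, cx Ψ, hT1.1 Ψ hΨ.1, ext Ψ hΨ⟩
  obtain ⟨ε, hε, hεU⟩ := hU N hN1 (cls Φ) hΦU (mem Φ hΦ)
  obtain ⟨δ, hδ, hst⟩ := t4_stab hn hε
  refine ⟨δ, hδ, fun Ψ hΨ hd => hεU _ (mem Ψ hΨ) ?_⟩
  exact ⟨Φ, cx Φ, Ψ, cx Ψ, hT1.1 Φ hΦ.1, ext Φ hΦ, hT1.1 Ψ hΨ.1, ext Ψ hΨ,
    fun z hz => hst Φ hΦ Ψ hΨ hd z (hz.le.trans hN3)⟩

theorem t4_low {F : ℝ → ℝ} (h : IsLift F) : ∃ c : ℝ, 0 < c ∧ ∀ x, c ≤ deriv F x := by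
  have hc : Continuous (deriv F) := continuous_iff_continuousAt.2 fun x => (h.an x).deriv.continuousAt
  have hp : Function.Periodic (deriv F) 1 := by
    intro x
    have e : (fun t => F (t + 1)) = fun t => F t + 1 := funext h.per
    have h1 : deriv (fun t => F (t + 1)) x = deriv F (x + 1) := deriv_comp_add_const _ _ _
    rw [← h1, e, deriv_add_const]
  obtain ⟨x0, hx0, hmin⟩ := isCompact_Icc.exists_isMinOn (Set.nonempty_Icc.2 (zero_le_one (α := ℝ)))
    hc.continuousOn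
  refine ⟨deriv F x0, h.pos x0, fun x => ?_⟩
  obtain ⟨y, hy, hxy⟩ := hp.exists_mem_Ico₀ one_pos x
  rw [hxy]
  exact hmin ⟨hy.1, hy.2.le⟩

theorem t4_rder {a : ℝ} (ha : 0 < a) {F : ℝ → ℝ} {Fc : ℂ → ℂ} (hd : DifferentiableOn ℂ Fc (St a))
    (hr : ∀ x : ℝ, Fc x = (F x : ℂ)) (x : ℝ) : deriv F x = (deriv Fc x).re := by
  have h1 : HasDerivAt Fc (deriv Fc x) (x : ℂ) :=
    (hd.differentiableAt ((t4_isOpen_St a).mem_nhds (t4_real_mem ha x))).hasDerivAt
  have h2 := h1.real_of_complex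
  have e : (fun t : ℝ => (Fc t).re) = F := by
    funext t
    rw [hr t, Complex.ofReal_re]
  rw [e] at h2
  exact h2.deriv

theorem t4_key {n m : ℕ} (hn : 1 ≤ n) {F : ℝ → ℝ} {Fc : ℂ → ℂ} (hFc : HasExt n F Fc) {C c0 : ℝ}
    (hC : ∀ z : ℂ, |z.im| < 1 / n → ‖Fc z - z‖ ≤ C) (hc0 : 0 < c0) (hlow : ∀ x, c0 ≤ deriv F x)
    (hm1 : C + 1 ≤ m) (hm2 : 2 / c0 ≤ m) (hm3 : 2 * n ≤ m) {H : ℝ → ℝ} {Hc : ℂ → ℂ} (hH : IsLift H)
    (hHc : HasExt n H Hc) {ε : ℝ} (hε : 0 ≤ ε) (hε1 : ε ≤ 1) (hε2 : ε ≤ c0 / (4 * n))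
    (hd : ∀ z : ℂ, |z.im| < 1 / n → ‖Fc z - Hc z‖ ≤ ε) : H ∈ AA m := by
  have hn0 : (0 : ℝ) < n := by exact_mod_cast hn
  have ha : (0 : ℝ) < 1 / n := by positivity
  have hm0 : (0 : ℝ) < m := by
    have : 0 < m := by omega
    exact_mod_cast this
  have hb0 : (0 : ℝ) ≤ 1 / (2 * n) := by positivity
  have hba : (1 : ℝ) / (2 * n) < 1 / n := by
    apply one_div_lt_one_div_of_lt hn0
    linarith
  have hper : ∀ z ∈ St (1 / (n : ℝ)), Hc (z + 1) = Hc z + 1 := by
    have hst : ∀ z ∈ St (1 / (n : ℝ)), z + 1 ∈ St (1 / (n : ℝ)) := by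
      intro z hz
      simpa [St] using hz
    apply t4_ident ha
    · exact hHc.1.comp (by fun_prop) hst
    · exact hHc.1.add_const _
    · intro x
      have e : (x : ℂ) + 1 = ((x + 1 : ℝ) : ℂ) := by push_cast; rfl
      rw [e, hHc.2.1, hHc.2.1, hH.per]
      push_cast
      rfl
  refine ⟨hH, ?_, ?_⟩
  · intro l _
    have h1 := t4_decay (a := 1 / (n : ℝ)) (C := C + 1) (w := fun x => H x - x)
      (h := fun z => Hc z - z) (hHc.1.sub differentiableOn_id) (by
        intro z hz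
        show Hc (z + 1) - (z + 1) = Hc z - z
        rw [hper z hz]
        ring) (by
        intro x
        show Hc x - x = _
        rw [hHc.2.1]
        push_cast
        rfl) (by
        intro z hz
        show ‖Hc z - z‖ ≤ C + 1
        have e : Hc z - z = (Fc z - z) - (Fc z - Hc z) := by ring
        rw [e]
        refine (norm_sub_le _ _).trans ?_
        have h1 := hC z hz
        have h2 := hd z hz
        linarith) (1 / (2 * n)) hb0 hba l
    refine h1.trans ?_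
    apply mul_le_mul hm1 _ (Real.exp_pos _).le hm0.le
    apply Real.exp_le_exp.2
    apply neg_le_neg
    rw [div_eq_mul_one_div (2 * π * |(l : ℝ)|)]
    apply mul_le_mul_of_nonneg_left _ (by positivity)
    apply one_div_le_one_div_of_le (by positivity)
    exact_mod_cast hm3
  · intro x
    have hcl : Metric.closedBall (x : ℂ) (1 / (2 * n)) ⊆ St (1 / (n : ℝ)) := by
      intro z hz
      rw [Metric.mem_closedBall, Complex.dist_eq] at hz
      have h1 : |(z - x).im| ≤ ‖z - x‖ := Complex.abs_im_le_norm _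
      rw [Complex.sub_im, Complex.ofReal_im, sub_zero] at h1
      exact lt_of_le_of_lt (h1.trans hz) hba
    have h2 := Complex.norm_deriv_le_of_forall_mem_sphere_norm_le (f := fun z => Fc z - Hc z)
      (c := (x : ℂ)) (R := 1 / (2 * n)) (C := ε) (by positivity)
      ((hFc.1.sub hHc.1).diffContOnCl_ball hcl) (by
        intro z hz
        exact hd z (hcl (Metric.sphere_subset_closedBall hz)))
    have hFd : DifferentiableAt ℂ Fc (x : ℂ) :=
      hFc.1.differentiableAt ((t4_isOpen_St _).mem_nhds (t4_real_mem ha x))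
    have hHd : DifferentiableAt ℂ Hc (x : ℂ) :=
      hHc.1.differentiableAt ((t4_isOpen_St _).mem_nhds (t4_real_mem ha x))
    have e : deriv (fun z => Fc z - Hc z) (x : ℂ) = deriv Fc x - deriv Hc x := deriv_fun_sub hFd hHd
    rw [e] at h2
    have h3 := (Complex.abs_re_le_norm _).trans h2
    rw [Complex.sub_re, ← t4_rder ha hFc.1 hFc.2.1, ← t4_rder ha hHc.1 hHc.2.1] at h3
    have h4 := (abs_le.1 h3).2
    have h5 : ε / (1 / (2 * (n : ℝ))) ≤ c0 / 2 := by
      rw [div_div_eq_mul_div, div_one]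
      calc ε * (2 * n) ≤ c0 / (4 * n) * (2 * n) := by gcongr
        _ = c0 / 2 := by field_simp; ring
    have h6 := hlow x
    have h7 : 1 / (m : ℝ) ≤ c0 / 2 := by
      rw [div_le_iff₀ hc0] at hm2
      rw [div_le_iff₀ hm0]
      nlinarith
    linarith

theorem t4_lift_add {H : ℝ → ℝ} (h : IsLift H) (k : ℤ) : IsLift (fun x => H x + k) where
  an x := (h.an x).add analyticAt_const
  per x := by
    show H (x + 1) + k = H x + k + 1
    rw [h.per]
    ring
  pos x := by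
    rw [deriv_add_const]
    exact h.pos x

theorem t4_part2 (hT1 : ST_T1) : ∀ U : Set DiffOmega, (∀ n : ℕ, 1 ≤ n → ∀ Φ ∈ AA n, cls Φ ∈ U →
    ∃ δ : ℝ, 0 < δ ∧ ∀ Ψ ∈ AA n, (∀ x, |Φ x - Ψ x| ≤ δ) → cls Ψ ∈ U) → IsOpen U := by
  intro U hU n hn f hf hfn
  obtain ⟨F, Fc, hF, hFc⟩ := hfn
  obtain ⟨C, hC⟩ := hFc.2.2
  obtain ⟨c0, hc0, hlow⟩ := t4_low hF.1
  have hn0 : (0 : ℝ) < n := by exact_mod_cast hn
  have ha : (0 : ℝ) < 1 / n := by positivity
  obtain ⟨N, hN⟩ := exists_nat_gt (max (C + 1) (2 / c0))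
  obtain ⟨m, hm1, hm2, hm3⟩ : ∃ m : ℕ, C + 1 ≤ m ∧ 2 / c0 ≤ m ∧ 2 * n ≤ m := by
    refine ⟨max N (2 * n), ?_, ?_, le_max_right _ _⟩
    · have h1 : (N : ℝ) ≤ ((max N (2 * n) : ℕ) : ℝ) := by exact_mod_cast le_max_left _ _
      exact (le_max_left _ _).trans (hN.le.trans h1)
    · have h1 : (N : ℝ) ≤ ((max N (2 * n) : ℕ) : ℝ) := by exact_mod_cast le_max_left _ _
      exact (le_max_right _ _).trans (hN.le.trans h1)
  have hFm : F ∈ AA m := t4_key hn hFc hC hc0 hlow hm1 hm2 hm3 hF.1 hFc le_rfl zero_le_one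
    (by positivity) (fun z _ => by simp)
  have hcF : cls F = f := hT1.2.1 _ _ F (hT1.1 F hF.1) hF
  obtain ⟨δ, hδ, hδU⟩ := hU m (by omega) F hFm (by rw [hcF]; exact hf)
  refine ⟨min (min 1 (c0 / (4 * n))) δ, by positivity, fun g hg hfg => ?_⟩
  obtain ⟨F2, Fc2, H, Hc, hF2, hFc2, hH, hHc, hd⟩ := hfg
  obtain ⟨k, hk⟩ := hT1.2.2.1 f F F2 hF hF2
  have hFF : ∀ z ∈ St (1 / (n : ℝ)), Fc2 z = Fc z + k := by
    apply t4_ident ha hFc2.1 (hFc.1.add_const _)
    intro x
    rw [hFc2.2.1, hFc.2.1, hk x]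
    push_cast
    rfl
  have hH' : IsLift (fun x => H x + ((-k : ℤ) : ℝ)) := t4_lift_add hH.1 (-k)
  have hHc' : HasExt n (fun x => H x + ((-k : ℤ) : ℝ)) (fun z => Hc z + ((-k : ℤ) : ℂ)) := by
    refine ⟨hHc.1.add_const _, ?_, ?_⟩
    · intro x
      show Hc x + _ = _
      rw [hHc.2.1]
      push_cast
      rfl
    · obtain ⟨C', hC'⟩ := hHc.2.2
      refine ⟨C' + ‖((-k : ℤ) : ℂ)‖, fun z hz => ?_⟩
      have e : Hc z + ((-k : ℤ) : ℂ) - z = (Hc z - z) + ((-k : ℤ) : ℂ) := by ring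
      show ‖Hc z + ((-k : ℤ) : ℂ) - z‖ ≤ _
      rw [e]
      exact (norm_add_le _ _).trans (add_le_add (hC' z hz) le_rfl)
  have hd' : ∀ z : ℂ, |z.im| < 1 / n → ‖Fc z - (Hc z + ((-k : ℤ) : ℂ))‖
      ≤ min (min 1 (c0 / (4 * n))) δ := by
    intro z hz
    have h1 := hd z hz
    rw [hFF z hz] at h1
    have e : Fc z - (Hc z + ((-k : ℤ) : ℂ)) = Fc z + k - Hc z := by
      push_cast
      ring
    rw [e]
    exact h1
  have hm : (fun x => H x + ((-k : ℤ) : ℝ)) ∈ AA m :=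
    t4_key hn hFc hC hc0 hlow hm1 hm2 hm3 hH' hHc' (by positivity)
      ((min_le_left _ _).trans (min_le_left _ _)) ((min_le_left _ _).trans (min_le_right _ _)) hd'
  have hcH : cls (fun x => H x + ((-k : ℤ) : ℝ)) = g := by
    rw [hT1.2.2.2.2.1 H (-k) hH.1]
    exact hT1.2.1 _ _ H (hT1.1 H hH.1) hH
  have hres := hδU _ hm (fun x => ?_)
  · rw [hcH] at hres
    exact hres
  · have h1 := hd' (x : ℂ) (by simpa using ha)
    rw [hFc.2.1, hHc.2.1] at h1
    have e : (F x : ℂ) - ((H x : ℂ) + ((-k : ℤ) : ℂ)) = ((F x - (H x + ((-k : ℤ) : ℝ)) : ℝ) : ℂ) := by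
      push_cast
      rfl
    rw [e, Complex.norm_real, Real.norm_eq_abs] at h1
    exact h1.trans (min_le_right _ _)

/-- T4 -/
theorem st_T4 (hT1 : ST_T1) (hD1 : ST_D1) : ST_T4 := ⟨t4_part1 hT1 hD1, t4_part2 hT1⟩

end

end Pool.Agent.Helper67.DO
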