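import Pool.Agent.Helper67.DO.StmtsW

/-! # W6: `∑_k e_k F = F` -/

namespace Pool.Agent.Helper67.DO

open scoped BigOperators Real
open MeasureTheory

/-- a functional which is well behaved on functions continuous on `S` -/
structure W6L {E : Type} [TopologicalSpace E] (S : Set E) (L : (E → ℂ) → ℂ) : Prop where
  congr : ∀ f g : E → ℂ, ContinuousOn g S → (∀ z ∈ S, f z = g z) → L f = L g
  add : ∀ f g : E → ℂ, ContinuousOn f S → ContinuousOn g S → L (fun z => f z + g z) = L f + L g
  cont : ∀ (X : Type) [TopologicalSpace X] [FirstCountableTopology X] (T : Set X) (K : X → E → ℂ),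
    ContinuousOn (fun x : X × E => K x.1 x.2) (T ×ˢ S) → ContinuousOn (fun x => L (K x)) T

theorem w6_slice {X E : Type} [TopologicalSpace X] [TopologicalSpace E] {T : Set X} {S : Set E}
    {K : X → E → ℂ} (h : ContinuousOn (fun x : X × E => K x.1 x.2) (T ×ˢ S)) {x : X} (hx : x ∈ T) :
    ContinuousOn (K x) S :=
  h.comp (f := fun z : E => (x, z)) (by fun_prop) (fun z hz => ⟨hx, hz⟩)

theorem W6L.of_eq {E : Type} [TopologicalSpace E] {S : Set E} {L L' : (E → ℂ) → ℂ} (h : W6L S L')
    (he : ∀ f, ContinuousOn f S → L f = L' f) : W6L S L where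
  congr f g hg hfg := by
    rw [he g hg, he f (hg.congr hfg)]
    exact h.congr f g hg hfg
  add f g hf hg := by
    have h1 : ContinuousOn (fun z => f z + g z) S := hf.add hg
    rw [he f hf, he g hg, he _ h1]
    exact h.add f g hf hg
  cont X _ _ T K hK := by
    apply (h.cont X T K hK).congr
    intro x hx
    exact he _ (w6_slice hK hx)

theorem W6L.zero {E : Type} [TopologicalSpace E] (S : Set E) : W6L S (fun _ => 0) where
  congr _ _ _ _ := rfl
  add _ _ _ _ := (add_zero 0).symm
  cont _ _ _ _ _ _ := continuousOn_const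

theorem W6L.sub {E : Type} [TopologicalSpace E] {S : Set E} {L L' : (E → ℂ) → ℂ} (h : W6L S L)
    (h' : W6L S L') : W6L S (fun f => L f - L' f) where
  congr f g hg hfg := by
    show L f - L' f = L g - L' g
    rw [h.congr f g hg hfg, h'.congr f g hg hfg]
  add f g hf hg := by
    show L _ - L' _ = L f - L' f + (L g - L' g)
    rw [h.add f g hf hg, h'.add f g hf hg]
    ring
  cont X _ _ T K hK := (h.cont X T K hK).sub (h'.cont X T K hK)

theorem W6L.mul {E : Type} [TopologicalSpace E] {S : Set E} {L : (E → ℂ) → ℂ} (h : W6L S L)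
    (c : ℂ) : W6L S (fun f => c * L f) where
  congr f g hg hfg := by
    show c * L f = c * L g
    rw [h.congr f g hg hfg]
  add f g hf hg := by
    show c * L _ = c * L f + c * L g
    rw [h.add f g hf hg]
    ring
  cont X _ _ T K hK := continuousOn_const.mul (h.cont X T K hK)

theorem W6L.int {S : Set ℂ} (a b : ℝ) (hab : a ≤ b) (γ : ℝ → ℂ) (hγ : Continuous γ)
    (hS : ∀ t ∈ Set.Icc a b, γ t ∈ S) : W6L S (fun f => ∫ t in a..b, f (γ t)) where
  congr f g _ hfg := by
    apply intervalIntegral.integral_congr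
    intro t ht
    rw [Set.uIcc_of_le hab] at ht
    exact hfg _ (hS t ht)
  add f g hf hg := by
    apply intervalIntegral.integral_add
    · apply ContinuousOn.intervalIntegrable
      rw [Set.uIcc_of_le hab]
      exact hf.comp hγ.continuousOn hS
    · apply ContinuousOn.intervalIntegrable
      rw [Set.uIcc_of_le hab]
      exact hg.comp hγ.continuousOn hS
  cont X _ _ T K hK := by
    rw [continuousOn_iff_continuous_domRestrict]
    have h1 : Continuous fun q : T × ℝ => K q.1 (γ (Set.projIcc a b hab q.2)) := by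
      have h2 : Continuous fun q : T × ℝ =>
          (((q.1 : X), γ (Set.projIcc a b hab q.2)) : X × ℂ) := by
        fun_prop
      exact hK.comp_continuous h2 fun q => ⟨q.1.2, hS _ (Set.projIcc a b hab q.2).2⟩
    have h3 := intervalIntegral.continuous_parametric_intervalIntegral_of_continuous
      (μ := volume) (a₀ := a) (f := fun (x : T) (t : ℝ) => K x (γ (Set.projIcc a b hab t))) h1
      (s := fun _ => b) continuous_const
    refine h3.congr ?_
    intro x
    apply intervalIntegral.integral_congr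
    intro t ht
    rw [Set.uIcc_of_le hab] at ht
    show K x (γ (Set.projIcc a b hab t)) = K x (γ t)
    rw [Set.projIcc_of_mem hab ht]

theorem W6L.comp {E E' : Type} [TopologicalSpace E] [TopologicalSpace E'] {S₀ : Set ℂ}
    {S' : Set E'} {S : Set E} {L₀ : (ℂ → ℂ) → ℂ} {L' : (E' → ℂ) → ℂ} (h₀ : W6L S₀ L₀)
    (h' : W6L S' L') (Φ : ℂ → E' → E) (hΦ : Continuous fun x : ℂ × E' => Φ x.1 x.2)
    (hS : ∀ ζ ∈ S₀, ∀ v ∈ S', Φ ζ v ∈ S) :
    W6L S (fun f => L₀ (fun ζ => L' (fun v => f (Φ ζ v)))) where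
  congr f g hg hfg := by
    have hc : ContinuousOn (fun x : ℂ × E' => g (Φ x.1 x.2)) (S₀ ×ˢ S') :=
      hg.comp hΦ.continuousOn fun x hx => hS _ hx.1 _ hx.2
    apply h₀.congr _ _ (h'.cont ℂ S₀ (fun ζ v => g (Φ ζ v)) hc)
    intro ζ hζ
    apply h'.congr _ _ (w6_slice (K := fun ζ v => g (Φ ζ v)) hc hζ)
    intro v hv
    exact hfg _ (hS ζ hζ v hv)
  add f g hf hg := by
    have hcf : ContinuousOn (fun x : ℂ × E' => f (Φ x.1 x.2)) (S₀ ×ˢ S') :=
      hf.comp hΦ.continuousOn fun x hx => hS _ hx.1 _ hx.2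
    have hcg : ContinuousOn (fun x : ℂ × E' => g (Φ x.1 x.2)) (S₀ ×ˢ S') :=
      hg.comp hΦ.continuousOn fun x hx => hS _ hx.1 _ hx.2
    have h1 := h'.cont ℂ S₀ (fun ζ v => f (Φ ζ v)) hcf
    have h2 := h'.cont ℂ S₀ (fun ζ v => g (Φ ζ v)) hcg
    rw [← h₀.add _ _ h1 h2]
    apply h₀.congr _ _ (h1.add h2)
    intro ζ hζ
    exact h'.add _ _ (w6_slice (K := fun ζ v => f (Φ ζ v)) hcf hζ)
      (w6_slice (K := fun ζ v => g (Φ ζ v)) hcg hζ)
  cont X _ _ T K hK := by
    apply h₀.cont X T (fun x ζ => L' (fun v => K x (Φ ζ v)))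
    apply h'.cont (X × ℂ) (T ×ˢ S₀) (fun x v => K x.1 (Φ x.2 v))
    have h1 : Continuous fun x : (X × ℂ) × E' => ((x.1.1, Φ x.1.2 x.2) : X × E) := by
      apply Continuous.prodMk (by fun_prop)
      exact hΦ.comp (f := fun x : (X × ℂ) × E' => (x.1.2, x.2)) (by fun_prop)
    exact hK.comp h1.continuousOn fun x hx => ⟨hx.1.1, hS _ hx.1.2 _ hx.2⟩

theorem W6L.sum {E : Type} [TopologicalSpace E] {S : Set E} {L : (E → ℂ) → ℂ} (h : W6L S L)
    {ι : Type} [DecidableEq ι] (s : Finset ι) (f : ι → E → ℂ) (hf : ∀ i ∈ s, ContinuousOn (f i) S) :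
    L (fun z => ∑ i ∈ s, f i z) = ∑ i ∈ s, L (f i) := by
  induction s using Finset.induction_on with
  | empty =>
    have h1 := h.add (fun _ => 0) (fun _ => 0) continuousOn_const continuousOn_const
    simp only [add_zero] at h1
    rw [Finset.sum_empty]
    simp only [Finset.sum_empty]
    exact (left_eq_add.1 h1)
  | insert i s hi ih =>
    rw [Finset.sum_insert hi, ← ih fun j hj => hf j (Finset.mem_insert_of_mem hj),
      ← h.add _ _ (hf i (Finset.mem_insert_self i s)) (by
        apply continuousOn_finsetSum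
        intro j hj
        exact hf j (Finset.mem_insert_of_mem hj))]
    congr 1
    funext z
    rw [Finset.sum_insert hi]

section

variable {N : ℕ} {P G : Set ℤ} {r σ : ℝ}

theorem w6_pI (hN : 0 < N) (hr0 : 0 < r) (hr : r < 1 / (4 * N)) (hσ : 0 < σ) (p : Pc N) :
    W6L (cP N P G r σ p) (pI N P G r σ p) := by
  classical
  have hN' : (0 : ℝ) < N := by exact_mod_cast hN
  have hrN : 2 * r ≤ 1 / N := by
    have e : (1 : ℝ) / N = 4 * (1 / (4 * N)) := by field_simp
    rw [e]
    linarith
  have hσ' : |σ| = σ := abs_of_pos hσ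
  rcases p with l | l
  · by_cases hG : ((l : ℕ) : ℤ) ∈ G
    · apply (W6L.zero _).of_eq
      intro f _
      show (if ((l : ℕ) : ℤ) ∈ G then 0 else gapI N r σ (l : ℕ) f) = 0
      rw [if_pos hG]
    · have hab : ((((l : ℕ) : ℤ) : ℝ)) / N + r ≤ ((((l : ℕ) : ℤ) : ℝ) + 1) / N - r := by
        rw [add_div]
        linarith
      have hm1 : ∀ t ∈ Set.Icc (((((l : ℕ) : ℤ) : ℝ)) / N + r) (((((l : ℕ) : ℤ) : ℝ) + 1) / N - r),
          (t - σ * Complex.I : ℂ) ∈ cP N P G r σ (Sum.inl l) := by
        intro t ht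
        refine ⟨hG, ?_, ?_, ?_⟩
        · simp [hσ']
        · simpa using ht.1
        · simpa using ht.2
      have hm2 : ∀ t ∈ Set.Icc (((((l : ℕ) : ℤ) : ℝ)) / N + r) (((((l : ℕ) : ℤ) : ℝ) + 1) / N - r),
          (t + σ * Complex.I : ℂ) ∈ cP N P G r σ (Sum.inl l) := by
        intro t ht
        refine ⟨hG, ?_, ?_, ?_⟩
        · simp [hσ']
        · simpa using ht.1
        · simpa using ht.2
      apply ((W6L.int _ _ hab _ (by fun_prop) hm1).sub (W6L.int _ _ hab _ (by fun_prop) hm2)).of_eq
      intro f hf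
      show (if ((l : ℕ) : ℤ) ∈ G then 0 else gapI N r σ (l : ℕ) f) = _
      rw [if_neg hG]
      unfold gapI
      apply intervalIntegral.integral_sub
      · apply ContinuousOn.intervalIntegrable
        rw [Set.uIcc_of_le hab]
        exact hf.comp (by fun_prop) hm1
      · apply ContinuousOn.intervalIntegrable
        rw [Set.uIcc_of_le hab]
        exact hf.comp (by fun_prop) hm2
  · by_cases hP : ((l : ℕ) : ℤ) ∈ P
    · have hL : W6L (cP N P G r σ (Sum.inr l)) (fun f =>
          if (((l : ℕ) : ℤ) - 1) ∈ G then 0 else verL N r σ (l : ℕ) f) := by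
        by_cases hG : (((l : ℕ) : ℤ) - 1) ∈ G
        · simp only [if_pos hG]
          exact W6L.zero _
        · simp only [if_neg hG]
          apply W6L.mul
          apply W6L.int (-σ) σ (by linarith)
            (fun y => (((((l : ℕ) : ℤ) : ℝ) / N - r : ℝ) : ℂ) + y * Complex.I) (by fun_prop)
          intro t ht
          refine Or.inl (Or.inr ⟨hP, hG, ?_, ?_⟩)
          · simpa using abs_le.2 ht
          · simp
      have hR : W6L (cP N P G r σ (Sum.inr l)) (fun f =>
          if ((l : ℕ) : ℤ) ∈ G then 0 else verR N r σ (l : ℕ) f) := by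
        by_cases hG : ((l : ℕ) : ℤ) ∈ G
        · simp only [if_pos hG]
          exact W6L.zero _
        · simp only [if_neg hG]
          apply W6L.mul
          apply W6L.int (-σ) σ (by linarith)
            (fun y => (((((l : ℕ) : ℤ) : ℝ) / N + r : ℝ) : ℂ) + y * Complex.I) (by fun_prop)
          intro t ht
          refine Or.inr ⟨hP, hG, ?_, ?_⟩
          · simpa using abs_le.2 ht
          · simp
      apply (hL.sub hR).of_eq
      intro f _
      show (if ((l : ℕ) : ℤ) ∈ P then _ else _) = _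
      rw [if_pos hP]
    · have hab : ((((l : ℕ) : ℤ) : ℝ)) / N - r ≤ ((((l : ℕ) : ℤ) : ℝ)) / N + r := by linarith
      have hm0 : ∀ t ∈ Set.Icc (((((l : ℕ) : ℤ) : ℝ)) / N - r) (((((l : ℕ) : ℤ) : ℝ)) / N + r),
          |t - ((l : ℕ) : ℝ) / N| ≤ r := by
        intro t ht
        have h1 := ht.1
        have h2 := ht.2
        rw [Int.cast_natCast] at h1 h2
        rw [abs_le]
        constructor <;> linarith
      have hm1 : ∀ t ∈ Set.Icc (((((l : ℕ) : ℤ) : ℝ)) / N - r) (((((l : ℕ) : ℤ) : ℝ)) / N + r),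
          (t - σ * Complex.I : ℂ) ∈ cP N P G r σ (Sum.inr l) := by
        intro t ht
        refine Or.inl (Or.inl ⟨hP, ?_, ?_⟩)
        · simp [hσ']
        · simpa using hm0 t ht
      have hm2 : ∀ t ∈ Set.Icc (((((l : ℕ) : ℤ) : ℝ)) / N - r) (((((l : ℕ) : ℤ) : ℝ)) / N + r),
          (t + σ * Complex.I : ℂ) ∈ cP N P G r σ (Sum.inr l) := by
        intro t ht
        refine Or.inl (Or.inl ⟨hP, ?_, ?_⟩)
        · simp [hσ']
        · simpa using hm0 t ht
      apply ((W6L.int _ _ hab _ (by fun_prop) hm1).sub (W6L.int _ _ hab _ (by fun_prop) hm2)).of_eq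
      intro f hf
      show (if ((l : ℕ) : ℤ) ∈ P then _ else capI N r σ (l : ℕ) f) = _
      rw [if_neg hP]
      unfold capI
      apply intervalIntegral.integral_sub
      · apply ContinuousOn.intervalIntegrable
        rw [Set.uIcc_of_le hab]
        exact hf.comp (by fun_prop) hm1
      · apply ContinuousOn.intervalIntegrable
        rw [Set.uIcc_of_le hab]
        exact hf.comp (by fun_prop) hm2

theorem w6_itI (hN : 0 < N) (hr0 : 0 < r) (hr : r < 1 / (4 * N)) (hσ : 0 < σ) :
    ∀ (q : ℕ) (τ : Fin q → Pc N),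
      W6L {ζ : Fin q → ℂ | ∀ j, ζ j ∈ cP N P G r σ (τ j)} (itI N P G r σ q τ) := by
  intro q
  induction q with
  | zero =>
    intro τ
    refine ⟨?_, ?_, ?_⟩
    · intro f g _ h
      exact h _ fun j => j.elim0
    · intro f g _ _
      rfl
    · intro X _ _ T K hK
      exact hK.comp (f := fun x : X => (x, fun i : Fin 0 => i.elim0)) (by fun_prop)
        fun x hx => ⟨hx, fun j => j.elim0⟩
  | succ q ih =>
    intro τ
    have hc : Continuous fun x : ℂ × (Fin q → ℂ) =>
        (Fin.cons x.1 x.2 : Fin (q + 1) → ℂ) := by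
      apply continuous_pi
      intro j
      induction j using Fin.cases with
      | zero => exact continuous_fst
      | succ j => exact (continuous_apply j).comp continuous_snd
    exact (w6_pI (P := P) (G := G) hN hr0 hr hσ (τ 0)).comp (ih fun i => τ i.succ)
      (fun ζ v => (Fin.cons ζ v : Fin (q + 1) → ℂ)) hc (by
        intro ζ hζ v hv j
        induction j using Fin.cases with
        | zero => exact hζ
        | succ j => exact hv j)


theorem w6_per (hs : Shape N P G) (k t : ℤ) : k ∈ P ↔ k + t * N ∈ P := by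
  induction t using Int.induction_on with
  | zero => rw [zero_mul, add_zero]
  | succ i ih =>
    rw [ih, hs.perP (k + i * N)]
    have e : k + (i : ℤ) * N + N = k + ((i : ℤ) + 1) * N := by ring
    rw [e]
  | pred i ih =>
    rw [ih, hs.perP (k + (-(i : ℤ) - 1) * N)]
    have e : k + (-(i : ℤ) - 1) * N + N = k + -(i : ℤ) * N := by ring
    rw [e]

theorem w6_shape (hs : Shape N P G) (I : Set ℤ) : Shape N (P ∪ pcl N I) G where
  perP k := by
    have h1 : k ∈ pcl N I ↔ k + N ∈ pcl N I := by
      constructor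
      · rintro ⟨t, ht⟩
        refine ⟨t + 1, ?_⟩
        have e : k + N - (t + 1) * N = k - t * N := by ring
        rw [e]
        exact ht
      · rintro ⟨t, ht⟩
        refine ⟨t - 1, ?_⟩
        have e : k - (t - 1) * N = k + N - t * N := by ring
        rw [e]
        exact ht
    rw [Set.mem_union, Set.mem_union, hs.perP k, h1]
  perG := hs.perG
  c0 k hk := Or.inl (hs.c0 k hk)
  c1 k hk := Or.inl (hs.c1 k hk)

theorem w6_sub {w' h' : ℝ} (hN : 0 < N) (hs : Shape N P G) (hw0 : 0 < w') (hwr : w' < r)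
    (hr : r < 1 / (4 * N)) (hσ : 0 < σ) (hσh : σ < h') (p : Pc N) :
    cP N P G r σ p ⊆ US N P G w' h' := by
  have hN' : (0 : ℝ) < N := by exact_mod_cast hN
  have hu : 4 * r < 1 / N := by
    have e : (1 : ℝ) / N = 4 * (1 / (4 * N)) := by field_simp
    rw [e]
    linarith
  have hk : ∀ k L : ℤ, (k : ℝ) / N = (L : ℝ) / N + ((k - L : ℤ) : ℝ) * (1 / N) := by
    intro k L
    push_cast
    field_simp
    ring
  have hk1 : ∀ k L : ℤ, ((k : ℝ) + 1) / N = (L : ℝ) / N + ((k + 1 - L : ℤ) : ℝ) * (1 / N) := by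
    intro k L
    push_cast
    field_simp
    ring
  have hup : ∀ m c : ℤ, c ≤ m → (c : ℝ) * (1 / N) ≤ (m : ℝ) * (1 / N) := by
    intro m c hm
    apply mul_le_mul_of_nonneg_right _ (by positivity)
    exact_mod_cast hm
  have h0u : (((0 : ℤ) : ℝ)) * (1 / (N : ℝ)) = 0 := by simp
  have h1u : (((1 : ℤ) : ℝ)) * (1 / (N : ℝ)) = 1 / N := by simp
  have hmu : (((-1 : ℤ) : ℝ)) * (1 / (N : ℝ)) = -(1 / N) := by push_cast; ring
  have hr0 : 0 < r := hw0.trans hwr
  rcases p with l | l
  · rintro z ⟨hG, him, hl, hr'⟩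
    set L : ℤ := ((l : ℕ) : ℤ) with hL
    have eL : (L : ℝ) = ((l : ℕ) : ℝ) := by rw [hL]; exact Int.cast_natCast _
    rw [← eL] at hl hr'
    rw [add_div] at hr'
    refine ⟨by rw [him]; exact hσh, ?_, ?_⟩
    · intro k _
      rw [lt_abs, hk k L]
      rcases le_or_gt k L with h | h
      · left
        have := hup 0 (k - L) (by omega)
        linarith
      · right
        have := hup (k - L) 1 (by omega)
        linarith
    · intro k hkG
      have hne : k ≠ L := by rintro rfl; exact hG hkG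
      rw [hk k L, hk1 k L]
      rcases lt_or_gt_of_ne hne with h | h
      · right
        have := hup 0 (k + 1 - L) (by omega)
        linarith
      · left
        have := hup (k - L) 1 (by omega)
        linarith
  · intro z hz
    set L : ℤ := ((l : ℕ) : ℤ) with hL
    have eL : (L : ℝ) = ((l : ℕ) : ℝ) := by rw [hL]; exact Int.cast_natCast _
    rcases hz with (⟨hP, him, hre⟩ | ⟨hP, hG, him, hre⟩) | ⟨hP, hG, him, hre⟩
    · rw [← eL, abs_le] at hre
      obtain ⟨hre1, hre2⟩ := hre
      refine ⟨by rw [him]; exact hσh, ?_, ?_⟩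
      · intro k hkP
        have hne : k ≠ L := by rintro rfl; exact hP hkP
        rw [lt_abs, hk k L]
        rcases lt_or_gt_of_ne hne with h | h
        · left
          have := hup (-1) (k - L) (by omega)
          linarith
        · right
          have := hup (k - L) 1 (by omega)
          linarith
      · intro k hkG
        have hne : k ≠ L := by rintro rfl; exact hP (hs.c0 _ hkG)
        have hne1 : k + 1 ≠ L := by
          intro h
          have h9 := hs.c1 k hkG
          rw [h] at h9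
          exact hP h9
        rw [hk k L, hk1 k L]
        rcases lt_or_gt_of_ne hne with h | h
        · right
          have := hup (-1) (k + 1 - L) (by omega)
          linarith
        · left
          have := hup (k - L) 1 (by omega)
          linarith
    · rw [← eL] at hre
      refine ⟨him.trans_lt hσh, ?_, ?_⟩
      · intro k _
        rw [lt_abs, hk k L]
        rcases lt_or_ge k L with h | h
        · left
          have := hup (-1) (k - L) (by omega)
          linarith
        · right
          have := hup (k - L) 0 (by omega)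
          linarith
      · intro k hkG
        have hne : k ≠ L - 1 := fun h => hG (h ▸ hkG)
        rw [hk k L, hk1 k L]
        rcases lt_or_ge k L with h | h
        · right
          have := hup (-1) (k + 1 - L) (by omega)
          linarith
        · left
          have := hup (k - L) 0 (by omega)
          linarith
    · rw [← eL] at hre
      refine ⟨him.trans_lt hσh, ?_, ?_⟩
      · intro k _
        rw [lt_abs, hk k L]
        rcases le_or_gt k L with h | h
        · left
          have := hup 0 (k - L) (by omega)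
          linarith
        · right
          have := hup (k - L) 1 (by omega)
          linarith
      · intro k hkG
        have hne : k ≠ L := by rintro rfl; exact hG hkG
        rw [hk k L, hk1 k L]
        rcases lt_or_gt_of_ne hne with h | h
        · right
          have := hup 0 (k + 1 - L) (by omega)
          linarith
        · left
          have := hup (k - L) 1 (by omega)
          linarith

/-- distance of the contour to the removed points, modulo integers -/
theorem w6_dist {w h : ℝ} (hN : 0 < N) (hs : Shape N P G) (i : Fin N) (hi : ((i : ℕ) : ℤ) ∈ P)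
    {z ζ : ℂ} (hz : z ∈ US N P G w h) (hζ : ζ ∈ cP N P G r σ (Sum.inr i)) (hr0 : 0 < r) (t : ℤ) :
    w - r ≤ |(z - ζ).re - t| := by
  have hN' : (0 : ℝ) < N := by exact_mod_cast hN
  have h1 : |ζ.re - ((i : ℕ) : ℝ) / N| = r := by
    rcases hζ with (⟨hP, _⟩ | ⟨_, _, _, hre⟩) | ⟨_, _, _, hre⟩
    · exact absurd hi hP
    · rw [hre, sub_right_comm, sub_self, zero_sub, abs_neg, abs_of_pos hr0]
    · rw [hre, add_sub_cancel_left, abs_of_pos hr0]
  have h2 := hz.2.1 (((i : ℕ) : ℤ) + t * N) ((w6_per hs _ t).1 hi)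
  have e : (((((i : ℕ) : ℤ) + t * N : ℤ)) : ℝ) / N = ((i : ℕ) : ℝ) / N + t := by
    push_cast
    field_simp
  rw [e] at h2
  have h3 : z.re - (((i : ℕ) : ℝ) / N + t) = ((z - ζ).re - t) + (ζ.re - ((i : ℕ) : ℝ) / N) := by
    rw [Complex.sub_re]
    ring
  rw [h3] at h2
  have h4 := abs_add_le ((z - ζ).re - t) (ζ.re - ((i : ℕ) : ℝ) / N)
  rw [h1] at h4
  linarith

/-- the kernel has no pole on the contour -/
theorem w6_ne {w h : ℝ} (hN : 0 < N) (hs : Shape N P G) (hr0 : 0 < r) (hrw : r < w) (hhσ : h < σ)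
    (p : Pc N) {z ζ : ℂ} (hz : z ∈ US N P G w h) (hζ : ζ ∈ cP N P G r σ p) :
    Complex.sin (π * (ζ - z)) ≠ 0 := by
  intro hc
  rw [Complex.sin_eq_zero_iff] at hc
  obtain ⟨t, ht⟩ := hc
  have hπ : (π : ℂ) ≠ 0 := by exact_mod_cast Real.pi_ne_zero
  have h1 : ζ - z = t := by
    rw [mul_comm (t : ℂ)] at ht
    exact mul_left_cancel₀ hπ ht
  have him : ζ.im = z.im := by
    have := congrArg Complex.im h1
    rw [Complex.sub_im, Complex.intCast_im] at this
    linarith
  have hre : (z - ζ).re - ((-t : ℤ) : ℝ) = 0 := by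
    have := congrArg Complex.re h1
    rw [Complex.sub_re, Complex.intCast_re] at this
    rw [Complex.sub_re]
    push_cast
    linarith
  have hzi := hz.1
  have hv : ∀ i : Fin N, ((i : ℕ) : ℤ) ∈ P → ζ ∈ cP N P G r σ (Sum.inr i) → False := by
    intro i hi hζi
    have h5 := w6_dist hN hs i hi hz hζi hr0 (-t)
    rw [hre, abs_zero] at h5
    linarith
  rcases p with l | l
  · have h6 := hζ.2.1
    rw [him] at h6
    linarith
  · have hζ' := hζ
    rcases hζ with (⟨_, h6, _⟩ | ⟨hP, _⟩) | ⟨hP, _⟩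
    · rw [him] at h6
      linarith
    · exact hv l hP hζ'
    · exact hv l hP hζ'

end

theorem w6_kap_cont {X : Type} [TopologicalSpace X] {S : Set X} {f : X → ℂ} (hf : ContinuousOn f S)
    (h : ∀ x ∈ S, Complex.sin (π * f x) ≠ 0) : ContinuousOn (fun x => kap (f x)) S := by
  have e : (fun x => kap (f x))
      = fun x => Complex.cos (π * f x) / Complex.sin (π * f x) / (2 * Complex.I) := rfl
  rw [e]
  apply ContinuousOn.div_const
  apply ContinuousOn.div
  · exact Complex.continuous_cos.comp_continuousOn (continuousOn_const.mul hf)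
  · exact Complex.continuous_sin.comp_continuousOn (continuousOn_const.mul hf)
  · exact h

theorem w6_Pw_cont {N q : ℕ} (l : Fin N) (τ : Fin q → Pc N) (z : Fin q → ℂ) :
    Continuous fun ζ => Pw l τ z ζ := by
  classical
  unfold Pw sn
  apply continuous_finsetProd
  intro j _
  by_cases h : τ j = Sum.inr l
  · simp only [if_pos h]
    fun_prop
  · simp only [if_neg h]
    fun_prop

theorem w6_Sw_cont {N q : ℕ} (M : ℕ) (τ : Fin q → Pc N) (z : Fin q → ℂ) :
    Continuous fun ζ => Sw M τ z ζ := by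
  classical
  unfold Sw
  apply continuous_finsetSum
  intro l _
  by_cases h : (l : ℕ) < M
  · simp only [if_pos h]
    exact w6_Pw_cont l τ z
  · simp only [if_neg h]
    fun_prop

theorem w6_pigeon {N M q : ℕ} (hM : M ≤ N) (hq : q < M) (τ : Fin q → Pc N) :
    ∃ i : Fin N, (i : ℕ) < M ∧ ∀ j, τ j ≠ Sum.inr i := by
  classical
  by_contra hc
  push Not at hc
  have h1 : ∀ a : Fin M, ∃ j, τ j = Sum.inr ⟨a, a.2.trans_le hM⟩ := fun a => hc ⟨a, _⟩ a.2
  choose f hf using h1
  have hinj : Function.Injective f := by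
    intro a b hab
    have h2 := hf a
    rw [hab, hf b] at h2
    have h3 := congrArg Fin.val (Sum.inr_injective h2)
    exact Fin.ext h3.symm
  have h4 := Fintype.card_le_of_injective f hinj
  rw [Fintype.card_fin, Fintype.card_fin] at h4
  omega

theorem st_W6 (h2 : ST_W2) (h3 : ST_W3) : ST_W6 := by
  classical
  intro N M q P G I hD hI hIM w' w hw' hww hw
  have hN := hD.pos
  have hs := w6_shape hD.sh I
  obtain ⟨h0, ρ, C, hh0, hρ, hS⟩ := h3 N q (w - (w' + w) / 2) hN (by linarith)
  refine ⟨h0, hh0, ?_⟩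
  intro h h' hh hhh hh' F hF z hz
  set r := (w' + w) / 2 with hr
  set σ := (h' + h) / 2 with hσ
  set P' := P ∪ pcl N I with hP'
  have hr0 : 0 < r := by rw [hr]; linarith
  have hwr : w' < r := by rw [hr]; linarith
  have hrw : r < w := by rw [hr]; linarith
  have hr4 : r < 1 / (4 * N) := hrw.trans hw
  have hσ0 : 0 < σ := by rw [hσ]; linarith
  have hhσ : h < σ := by rw [hσ]; linarith
  have hσh : σ < h' := by rw [hσ]; linarith
  have hcp := fun p => w6_sub hN hs hw' hwr hr4 hσ0 hσh p
  have hSw : ∀ (τ : Fin q → Pc N) (ζ : Fin q → ℂ), (∀ j, ζ j ∈ cP N P' G r σ (τ j)) →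
      Sw M τ z ζ ≠ 0 := by
    intro τ ζ hζ hc
    have h4 := hS M τ z ζ (fun j => by
      have := (hz j).1
      linarith) (fun j => by
      have := (hcp _ (hζ j)).1
      linarith) (by
      rcases hIM with ⟨i, hi⟩ | hqM
      · have hi2 := hI i hi
        have hMN : (M : ℤ) ≤ N := by exact_mod_cast hD.le
        have ei : ((i.toNat : ℕ) : ℤ) = i := Int.toNat_of_nonneg hi2.1
        refine ⟨⟨i.toNat, by omega⟩, by show i.toNat < M; omega, ?_⟩
        intro j hj k
        have hiP : (((⟨i.toNat, by omega⟩ : Fin N) : ℕ) : ℤ) ∈ P' := by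
          right
          refine ⟨0, ?_⟩
          rw [zero_mul, sub_zero]
          show ((i.toNat : ℕ) : ℤ) ∈ I
          rw [ei]
          exact hi
        have h5 := hζ j
        rw [hj] at h5
        exact w6_dist hN hs _ hiP (hz j) h5 hr0 k
      · obtain ⟨i, hi, hi2⟩ := w6_pigeon hD.le hqM τ
        exact ⟨i, hi, fun j hj => absurd hj (hi2 j)⟩)
    rw [hc, Complex.zero_re] at h4
    linarith [h4.1]
  have hFc : ∀ τ : Fin q → Pc N, ContinuousOn F {ζ | ∀ j, ζ j ∈ cP N P' G r σ (τ j)} := by
    intro τ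
    exact hF.hol.continuousOn.mono fun ζ hζ j => hcp _ (hζ j)
  have hkc : ∀ τ : Fin q → Pc N, ContinuousOn (fun ζ : Fin q → ℂ => ∏ j, kap (ζ j - z j))
      {ζ | ∀ j, ζ j ∈ cP N P' G r σ (τ j)} := by
    intro τ
    apply continuousOn_finsetProd
    intro j _
    apply w6_kap_cont
    · fun_prop
    · intro ζ hζ
      exact w6_ne hN hs hr0 hrw hhσ _ (hz j) (hζ j)
  have hHc : ∀ (τ : Fin q → Pc N) (k : Fin N), ContinuousOn (fun ζ : Fin q → ℂ =>
      if (k : ℕ) < M then F ζ * (Pw k τ z ζ / Sw M τ z ζ) * ∏ j, kap (ζ j - z j) else 0)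
      {ζ | ∀ j, ζ j ∈ cP N P' G r σ (τ j)} := by
    intro τ k
    by_cases hk : (k : ℕ) < M
    · simp only [if_pos hk]
      apply ContinuousOn.mul _ (hkc τ)
      apply (hFc τ).mul
      apply ContinuousOn.div
      · exact (w6_Pw_cont k τ z).continuousOn
      · exact (w6_Sw_cont M τ z).continuousOn
      · intro ζ hζ
        exact hSw τ ζ hζ
    · simp only [if_neg hk]
      exact continuousOn_const
  rw [← h2 N q P' G w' r w h σ h' hN hs hw' hwr hrw hw hh hhσ hσh F hF z hz]
  have hL := fun τ : Fin q → Pc N => w6_itI (P := P') (G := G) hN hr0 hr4 hσ0 q τ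
  have e1 : ∀ k : Fin N, (if (k : ℕ) < M then eop N P' G r σ M k q F z else 0)
      = ∑ τ : Fin q → Pc N, itI N P' G r σ q τ (fun ζ =>
        if (k : ℕ) < M then F ζ * (Pw k τ z ζ / Sw M τ z ζ) * ∏ j, kap (ζ j - z j) else 0) := by
    intro k
    by_cases hk : (k : ℕ) < M
    · simp only [if_pos hk]
      rfl
    · simp only [if_neg hk]
      symm
      apply Finset.sum_eq_zero
      intro τ _
      have h5 := (hL τ).sum (ι := Fin N) ∅ (fun _ _ => 0) (by simp)
      simpa using h5
  rw [Finset.sum_congr rfl fun k _ => e1 k, Finset.sum_comm]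
  apply Finset.sum_congr rfl
  intro τ _
  rw [← (hL τ).sum Finset.univ _ fun k _ => hHc τ k]
  apply (hL τ).congr
  · exact (hFc τ).mul (hkc τ)
  · intro ζ hζ
    have h6 := hSw τ ζ hζ
    have h7 : ∀ k : Fin N,
        (if (k : ℕ) < M then F ζ * (Pw k τ z ζ / Sw M τ z ζ) * ∏ j, kap (ζ j - z j) else 0)
        = (if (k : ℕ) < M then Pw k τ z ζ else 0) * (F ζ * (∏ j, kap (ζ j - z j)) / Sw M τ z ζ) := by
      intro k
      by_cases hk : (k : ℕ) < M
      · simp only [if_pos hk]
        ring
      · simp only [if_neg hk]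
        ring
    rw [Finset.sum_congr rfl fun k _ => h7 k, ← Finset.sum_mul]
    have h8 : ∑ k : Fin N, (if (k : ℕ) < M then Pw k τ z ζ else 0) = Sw M τ z ζ := rfl
    rw [h8]
    field_simp

end Pool.Agent.Helper67.DO
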